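import Pool.Agent.Helper13.CSD.MainN

/-!
# Nonnegativity of the CSM expansion of `[Y(v)] * c_SM(Y(u)°)` in type A, all `u`, for all `v`
which are products of distinct simple reflections (in any order), and for all `v` of length at
most `3`.

`G = GL_n`, `n = m + 1`, `W = Perm (Fin (m + 1))`.
-/

namespace Pool.Agent.Results.MP_b79b1b_ag.BooleanPermutations

open MvPolynomial Pool.Agent.Helper13.CSD

/-- Let `π : ℤ[x_0, ..., x_m] → H` be Borel's presentation of the cohomology ring of the flag
variety of `GL_n`, `n = m + 1`. The family `C w = c_SM(Y(w)°)` exists, is unique and is a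
`ℤ`-basis of `H`; the Schubert classes `Y v = [Y(v)]` exist and are well defined; and for every `v`
which is a product of distinct simple reflections or has length at most `3`, and for every `u`,
all coefficients of `[Y(v)] * c_SM(Y(u)°)` in the basis of the CSM classes are nonnegative. -/
theorem result {m : ℕ} {H : Type} [CommRing H] (π : MvPolynomial (Fin (m + 1)) ℤ →+* H)
    (hπ : IsBorel π) :
    ∃ C : Equiv.Perm (Fin (m + 1)) → H, IsCSM π C ∧ (∀ C', IsCSM π C' → C' = C) ∧
      LinearIndependent ℤ C ∧ Submodule.span ℤ (Set.range C) = ⊤ ∧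
      ∃ Y : Equiv.Perm (Fin (m + 1)) → H,
        (∀ v : Equiv.Perm (Fin (m + 1)), ∃ P, IsSchub v P) ∧
        (∀ v P, IsSchub v P → Y v = π P) ∧
        ∀ v : Equiv.Perm (Fin (m + 1)),
          ((∃ l : List (Fin m), l.Nodup ∧ (l.map refl).prod = v) ∨ inv v ≤ 3) →
            ∀ u : Equiv.Perm (Fin (m + 1)),
              ∃ a : Equiv.Perm (Fin (m + 1)) → ℕ, Y v * C u = ∑ w, a w • C w :=
  boolean m π hπ

end Pool.Agent.Results.MP_b79b1b_ag.BooleanPermutations
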