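import Pool.Agent.Helper13.HTD.Par

/-!
# CSM classes times Schubert classes in every type

`P` is a reduced crystallographic root system (over the rationals) with base `b`, it is the root
system of `G`; `I` is the set of nodes of the Dynkin diagram, `A` the Cartan matrix, `W` the Weyl
group with simple reflections `s i`, and `π` is the projection of the polynomial ring in the
fundamental weights onto `H = H^*(G/B; ℚ)`. There is exactly one family `K w = c_SM(Y(w)°)`, it is
linearly independent, and every Schubert class `[Y(v)]` has a representative `F` (`IsSchub`).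
`CSMPos A s π K v` says that `[Y(v)] · c_SM(Y(u)°)` is a nonnegative combination of the classes
`c_SM(Y(w)°)` for every `u`. Lengths are the lengths of reduced words (`Red`).
-/

namespace Pool.Agent.Results.MP_b79b1b_ag.HookAllTypes

open MvPolynomial Pool.Agent.Helper13.HTD

theorem result {ι M N : Type} [Fintype ι] [AddCommGroup M] [Module ℚ M] [AddCommGroup N]
    [Module ℚ N] (P : RootPairing ι ℚ M N) [P.IsRootSystem] [P.IsCrystallographic] [P.IsReduced]
    (b : P.Base) {I : Type} [Fintype I] [DecidableEq I] (e : I ≃ b.support) (A : I → I → ℚ)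
    (hA : ∀ i j, A i j = P.pairing (e i) (e j)) {W : Type} [Group W] [Fintype W]
    (φ : W →* Equiv.Perm ι) (hφ : Function.Injective φ) (s : I → W)
    (hs : ∀ i, φ (s i) = P.reflectionPerm (e i)) (hW : Subgroup.closure (Set.range s) = ⊤)
    {H : Type} [CommRing H] (π : MvPolynomial I ℚ →+* H) (hπ : IsBorel A π) :
    (∃! K : W → H, IsCSM A s π K) ∧ (∀ v, ∃ F, IsSchub A s v F) ∧ ∀ K : W → H, IsCSM A s π K →
      (∀ a : W → ℚ, ∑ w, π (C (a w)) * K w = 0 → ∀ w, a w = 0) ∧
      -- (1) degree and parity of the coefficients; all coefficients with l(w) ≤ l(u) + 4, except for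
      -- the structure constants of the Schubert classes
      (∀ (u v : W) (F : MvPolynomial I ℚ) (a : W → ℚ), IsSchub A s v F →
        π F * K u = ∑ w, π (C (a w)) * K w →
        ∀ (w : W) (lu lv lw : List I), Red s u lu → Red s v lv → Red s w lw →
          (a w ≠ 0 → lu.length + lv.length ≤ lw.length ∧
            Even (lu.length + lv.length + lw.length)) ∧
          (lw.length ≤ lu.length + 4 →
            (lw.length = lu.length + lv.length → lv.length ≤ 2) → 0 ≤ a w)) ∧
      -- (2) length at most two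
      (∀ l : List I, l.length ≤ 2 → CSMPos A s π K (l.map s).prod) ∧
      -- (3) hooks of straight walks with orthogonal arms
      (∀ (f : ℕ → I) (q r a : ℕ), Straight A f (q + r + a + 1) →
        (∀ i ≤ q + r, ∀ j ≤ q + r, f i = f j → i = j) →
        (∀ i j, q ≤ i → i < q + r → q + r < j → j ≤ q + r + a → A (f j) (f i) = 0) →
        CSMPos A s π K (hook s f q r a)) ∧
      -- (4) hooks of paths which start at a leaf
      (∀ (f : ℕ → I) (q r a : ℕ), LeafChain A f (q + r + a + 1) →
        CSMPos A s π K (hook s f q r a)) ∧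
      -- (5) types B and C: the walk 1, 2, ..., n, n-1, ..., 1
      (∀ (n : ℕ) (ε : Fin n ≃ I) (f : ℕ → I),
        (∀ i j, A (ε i) (ε j) = CartanMatrix.B n i j) ∨
          (∀ i j, A (ε i) (ε j) = CartanMatrix.C n i j) →
        (∀ i : Fin n, f i = ε i ∧ f (2 * n - 2 - i) = ε i) →
        ∀ q r a, q + r < n → q + r + a + 2 ≤ 2 * n → (r = 0 ∨ 2 * (q + r) + a + 3 ≤ 2 * n) →
          CSMPos A s π K (hook s f q r a)) ∧
      -- (6) type D: the walk 1, ..., n-2, n-1, n, n-2, ..., 1, and the spinor varieties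
      (∀ (n : ℕ) (ε : Fin n ≃ I) (f : ℕ → I), 3 ≤ n →
        (∀ i j, A (ε i) (ε j) = CartanMatrix.D n i j) →
        (∀ i : Fin n, f i = ε i ∧ (i + 3 ≤ n → f (2 * n - 3 - i) = ε i)) →
        (∀ m a, m + 3 ≤ n → n ≤ m + a + 1 → m + a + 3 ≤ 2 * n →
          CSMPos A s π K (hook s f m 0 a)) ∧
        ∀ r, r + 2 ≤ n → CSMPos A s π K
          (((List.range r).map fun t => s (f (n - 2 - r + t))).prod * s (f (n - 1)))) ∧
      -- (7) products of elements with orthogonal supports
      ∀ l₁ l₂ : List I, (∀ i ∈ l₁, ∀ j ∈ l₂, A i j = 0) → CSMPos A s π K (l₁.map s).prod →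
        CSMPos A s π K (l₂.map s).prod → CSMPos A s π K ((l₁.map s).prod * (l₂.map s).prod) := by
  obtain ⟨h1, h2⟩ := main b e hA ⟨hφ, hs, hW⟩ hπ
  refine ⟨h1, exists_schub b e hA ⟨hφ, hs, hW⟩, fun K hK => ?_⟩
  obtain ⟨a0, a1, a2, a3, a4, a5, a6⟩ := h2 K hK
  exact ⟨a0, fun u v F a hF ha w lu lv lw =>
    par b e hA ⟨hφ, hs, hW⟩ hπ K hK u v F a hF ha w lu lv lw, a5, a1, a2, a3, a4, a6⟩

end Pool.Agent.Results.MP_b79b1b_ag.HookAllTypes
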