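import Pool.Agent.Helper13.CSD.Main7

/-!
# Nonnegativity of the CSM expansion of `[Y(v)] * c_SM(Y(u)°)` in type A

`G = GL_n`, `n = m + 1`, `W = Perm (Fin (m + 1))`, every `n`: all `v` of length at most `5`, all
`v` without four consecutive simple reflections in the support, two-row codes, and all direct sums
of such `v`; and all triples `u, v, w` with `l(w) ≤ l(u) + 7`, except that for
`l(w) = l(u) + l(v)` (ordinary Schubert structure constants) only `l(v) ≤ 5` is claimed.
-/

namespace Pool.Agent.Results.MP_b79b1b_ag.LengthFive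

open MvPolynomial Pool.Agent.Helper13.CSD

/-- The Lehmer code of `v` is zero outside two positions `i < j`, and `c_i ≤ j - i + 1` or
`c_j ≤ 2` or (`j = i + 1`, and `c_i ≤ 4` or `c_j ≤ 3`). -/
def TwoRows {m : ℕ} (v : Equiv.Perm (Fin (m + 1))) : Prop :=
  ∃ i j : Fin (m + 1), i < j ∧ (∀ k, k ≠ i → k ≠ j → code v k = 0) ∧
    (code v i ≤ (j : ℕ) - i + 1 ∨ code v j ≤ 2 ∨
      ((j : ℕ) = i + 1 ∧ (code v i ≤ 4 ∨ code v j ≤ 3)))

/-- All direct sums `u ⊕ w` (`u` permutes only numbers `< k`, `w` only numbers `≥ k`), iterated,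
of: permutations of length at most `5`; products of simple reflections among which there are no
four consecutive ones `s_i, s_(i+1), s_(i+2), s_(i+3)`; permutations `v` such that `v` or
`w_0 v w_0` has a two-row code as above. -/
inductive Sums {m : ℕ} : Equiv.Perm (Fin (m + 1)) → Prop
  | short (v : Equiv.Perm (Fin (m + 1))) : inv v ≤ 5 → Sums v
  | free (l : List (Fin m)) : (∀ i : ℕ, ¬ ∀ t < 4, ∃ k ∈ l, (k : ℕ) = i + t) →
      Sums (l.map refl).prod
  | rows (v : Equiv.Perm (Fin (m + 1))) :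
      TwoRows v ∨ TwoRows (Fin.revPerm * v * Fin.revPerm) → Sums v
  | sum (k : ℕ) (u w : Equiv.Perm (Fin (m + 1))) : (∀ x : Fin (m + 1), k ≤ (x : ℕ) → u x = x) →
      (∀ x : Fin (m + 1), (x : ℕ) < k → w x = x) → Sums u → Sums w → Sums (u * w)

/-- Let `π : ℤ[x_0, ..., x_m] → H` be Borel's presentation of the cohomology ring of the flag
variety of `GL_n`, `n = m + 1`. The family `C w = c_SM(Y(w)°)` exists, is unique and is a
`ℤ`-basis of `H`; the Schubert classes `Y v = [Y(v)]` exist and are well defined; and the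
coefficients `a u v w` of `[Y(v)] * c_SM(Y(u)°)` in this basis are nonnegative if `v` is in the
class `Sums` (e.g. `l(v) ≤ 5`), and if `l(w) ≤ l(u) + 7` and, in the case `l(w) = l(u) + l(v)`,
`l(v) ≤ 5`. -/
theorem result {m : ℕ} {H : Type} [CommRing H] (π : MvPolynomial (Fin (m + 1)) ℤ →+* H)
    (hπ : IsBorel π) :
    ∃ C : Equiv.Perm (Fin (m + 1)) → H, IsCSM π C ∧ (∀ C', IsCSM π C' → C' = C) ∧
      LinearIndependent ℤ C ∧ Submodule.span ℤ (Set.range C) = ⊤ ∧
      ∃ Y : Equiv.Perm (Fin (m + 1)) → H,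
        (∀ v : Equiv.Perm (Fin (m + 1)), ∃ P, IsSchub v P) ∧
        (∀ v P, IsSchub v P → Y v = π P) ∧
        ∃ a : Equiv.Perm (Fin (m + 1)) → Equiv.Perm (Fin (m + 1)) → Equiv.Perm (Fin (m + 1)) → ℤ,
          (∀ u v, Y v * C u = ∑ w, a u v w • C w) ∧
          (∀ u v w : Equiv.Perm (Fin (m + 1)), Sums v → 0 ≤ a u v w) ∧
          ∀ u v w : Equiv.Perm (Fin (m + 1)), inv w ≤ inv u + 7 →
            (inv w = inv u + inv v → inv v ≤ 5) → 0 ≤ a u v w :=
  main_seven m Sums (fun v hv => by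
    induction hv with
    | short v h => exact H50R.EE_five v (inv_eq v ▸ h)
    | free l h => exact EE_word l h
    | rows v h => exact h.elim EE_two fun h => H50R.EE_dual v (EE_two h)
    | sum k u w hu hw _ _ e1 e2 => exact H50R.EE_mul k u w hu hw e1 e2) π hπ

end Pool.Agent.Results.MP_b79b1b_ag.LengthFive
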