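import Pool.Agent.Helper13.CSD.MainN

/-!
# Nonnegativity of the CSM expansion of `[Y(v)] * c_SM(Y(u)°)` in type A, all `u`, for all `v`
whose Lehmer code satisfies condition (A) or (B), and for their images under the symmetry of the
Dynkin diagram.

`G = GL_n`, `n = m + 1`, `W = Perm (Fin (m + 1))`.  The conditions (positions numbered from 1)
are (A): `min(c_1, c_2, c_3) ≥ c_4 ≥ c_5 ≥ ⋯`, in particular all `v` with all descents in
`{1, 2, 3}`; (B): for some `r > 1`, `c_2 = ⋯ = c_(r-1) ≤ min(c_1, c_r)`, and these numbers are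
`≥ c_(r+1) ≥ c_(r+2) ≥ ⋯`.
-/

namespace Pool.Agent.Results.MP_b79b1b_ag.ThreeDescents

open MvPolynomial Pool.Agent.Helper13.CSD

/-- (A): `min(c_1, c_2, c_3) ≥ c_4 ≥ c_5 ≥ ⋯` (positions numbered from 1). -/
def condA {m : ℕ} (c : Fin (m + 1) → ℕ) : Prop :=
  ∀ j k : Fin (m + 1), j < k → 3 ≤ (k : ℕ) → c k ≤ c j

/-- (B): for some `r > 1` (positions numbered from 1), `c_2 = ⋯ = c_(r-1) ≤ min(c_1, c_r)`,
and these numbers are `≥ c_(r+1) ≥ c_(r+2) ≥ ⋯`. -/
def condB {m : ℕ} (c : Fin (m + 1) → ℕ) : Prop :=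
  ∃ r : Fin (m + 1), 0 < r ∧ (∀ j k : Fin (m + 1), j < k → r < k → c k ≤ c j) ∧
    ∀ j k : Fin (m + 1), 0 < j → j < r → k ≤ r → c j ≤ c k

/-- Let `π : ℤ[x_0, ..., x_m] → H` be Borel's presentation of the cohomology ring of the flag
variety of `GL_n`, `n = m + 1`. The family `C w = c_SM(Y(w)°)` exists, is unique and is a
`ℤ`-basis of `H`; the Schubert classes `Y v = [Y(v)]` exist and are well defined; and for every `v`
with condition (A) or (B) for `v` or `w_0 v w_0`, and for every `u`, all coefficients of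
`[Y(v)] * c_SM(Y(u)°)` in the basis of the CSM classes are nonnegative. -/
theorem result {m : ℕ} {H : Type} [CommRing H] (π : MvPolynomial (Fin (m + 1)) ℤ →+* H)
    (hπ : IsBorel π) :
    ∃ C : Equiv.Perm (Fin (m + 1)) → H, IsCSM π C ∧ (∀ C', IsCSM π C' → C' = C) ∧
      LinearIndependent ℤ C ∧ Submodule.span ℤ (Set.range C) = ⊤ ∧
      ∃ Y : Equiv.Perm (Fin (m + 1)) → H,
        (∀ v : Equiv.Perm (Fin (m + 1)), ∃ P, IsSchub v P) ∧
        (∀ v P, IsSchub v P → Y v = π P) ∧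
        ∀ v : Equiv.Perm (Fin (m + 1)), (condA (code v) ∨ condB (code v) ∨
            condA (code (Fin.revPerm * v * Fin.revPerm)) ∨
            condB (code (Fin.revPerm * v * Fin.revPerm))) →
          ∀ u : Equiv.Perm (Fin (m + 1)),
            ∃ a : Equiv.Perm (Fin (m + 1)) → ℕ, Y v * C u = ∑ w, a w • C w :=
  three m π hπ

end Pool.Agent.Results.MP_b79b1b_ag.ThreeDescents
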